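import Pool.Agent.W564.SC.Defs

/-!
# Part CN2: counting the terms of a progression close to the integers
-/

set_option autoImplicit false

namespace Pool.Agent.W352.SC

open Pool.Agent.W564.SC

/-- the integers strictly between `y` and `z` -/
noncomputable def Ib (y z : ℝ) : Finset ℤ := Finset.Icc (⌊y⌋ + 1) (⌈z⌉ - 1)

lemma mem_Ib (y z : ℝ) (t : ℤ) : t ∈ Ib y z ↔ y < t ∧ (t : ℝ) < z := by
  rw [Ib, Finset.mem_Icc, ← Int.floor_lt, ← Int.lt_ceil]
  constructor
  · rintro ⟨h1, h2⟩
    exact ⟨by omega, by omega⟩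
  · rintro ⟨h1, h2⟩
    exact ⟨by omega, by omega⟩

lemma card_Ib (y z : ℝ) (h : y ≤ z) : ((Ib y z).card : ℝ) ≤ z - y + 1 := by
  rw [Ib, Int.card_Icc]
  have h1 := Int.ceil_lt_add_one z
  have h2 := Int.lt_floor_add_one y
  have h3 : (((⌈z⌉ - 1 + 1 - (⌊y⌋ + 1)).toNat : ℤ) : ℝ) ≤ z - y + 1 := by
    rcases le_total 0 (⌈z⌉ - 1 + 1 - (⌊y⌋ + 1)) with h4 | h4
    · rw [Int.toNat_of_nonneg h4]
      push_cast
      linarith
    · rw [Int.toNat_of_nonpos h4]
      push_cast
      linarith
  exact_mod_cast h3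

theorem cn2 : S_CN2 := by
  intro m i q N b ρ c a hm hq hρ hρ8 hb hN
  classical
  have hm0 : (0 : ℝ) < m := by exact_mod_cast (by omega : 0 < m)
  have hq0 : (0 : ℝ) < q := by exact_mod_cast (by omega : 0 < q)
  set β : ℝ := (i : ℝ) * (q / m) - b with hβ
  have hθ : (i : ℝ) / m - b / q = β / q := by
    rw [hβ]
    field_simp
  rw [hθ, abs_div, abs_of_pos hq0] at hN
  have hβ0 : 0 < |β| := by
    rcases (abs_nonneg β).eq_or_lt with h | h
    · rw [← h] at hN
      norm_num at hN
    · exact h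
  have hβne : β ≠ 0 := abs_pos.mp hβ0
  -- the cover
  let x : ℕ → ℝ := fun v => c + i * ((a + v) / m)
  let lo : ℕ → ℝ := fun v => x v + min 0 (β * (N / q)) - ρ
  let hi : ℕ → ℝ := fun v => x v + max 0 (β * (N / q)) + ρ
  let ulo : ℕ → ℤ → ℝ := fun v t => (t - x v) / β - ρ / |β|
  let uhi : ℕ → ℤ → ℝ := fun v t => (t - x v) / β + ρ / |β|
  let A : Finset ℤ := (Finset.range q).biUnion fun v => (Ib (lo v) (hi v)).biUnion fun t =>
    (Ib (ulo v t) (uhi v t)).image fun u => a + q * u + v
  have hsub : Bad m i ρ c a N ⊆ (A : Set ℤ) := by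
    rintro l ⟨h1, h2, t, ht⟩
    have hqz : (0 : ℤ) < q := by exact_mod_cast (by omega : 0 < q)
    obtain ⟨v, hv⟩ : ∃ v : ℕ, (v : ℤ) = (l - a) % q :=
      ⟨((l - a) % q).toNat, Int.toNat_of_nonneg (Int.emod_nonneg _ hqz.ne')⟩
    have hvq : v < q := by
      have := Int.emod_lt_of_pos (l - a) hqz
      rw [← hv] at this
      exact_mod_cast this
    set u : ℤ := (l - a) / q with hu
    have hl : l = a + q * u + v := by
      have := Int.emod_add_mul_ediv (l - a) q
      rw [← hv, ← hu] at this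
      linarith
    have hu0 : 0 ≤ u := Int.ediv_nonneg (by linarith) hqz.le
    have hu1 : (q : ℤ) * u < N := by
      have : (0 : ℤ) ≤ v := by positivity
      linarith
    have hu0R : (0 : ℝ) ≤ u := by exact_mod_cast hu0
    have hu1R : (q : ℝ) * u < N := by exact_mod_cast hu1
    have hu2R : (u : ℝ) ≤ N / q := by
      rw [le_div_iff₀ hq0]
      linarith
    have hkey : c + i * ((l : ℝ) / m) - t = x v + β * u - ((t - b * u : ℤ) : ℝ) := by
      simp only [x, hβ]
      rw [hl]
      push_cast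
      field_simp
      ring
    rw [hkey, abs_lt] at ht
    simp only [A, Finset.coe_biUnion, Set.mem_iUnion, Finset.mem_coe, Finset.coe_image, Set.mem_image,
      Finset.mem_range, exists_prop]
    refine ⟨v, hvq, t - b * u, ?_, u, ?_, hl.symm⟩
    · rw [mem_Ib]
      have hmin : min 0 (β * (N / q)) ≤ β * u := by
        rcases le_total 0 β with h | h
        · exact (min_le_left _ _).trans (by positivity)
        · refine (min_le_right _ _).trans ?_
          exact mul_le_mul_of_nonpos_left hu2R h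
      have hmax : β * u ≤ max 0 (β * (N / q)) := by
        rcases le_total 0 β with h | h
        · refine le_trans ?_ (le_max_right _ _)
          exact mul_le_mul_of_nonneg_left hu2R h
        · exact le_trans (mul_nonpos_of_nonpos_of_nonneg h hu0R) (le_max_left _ _)
      simp only [lo, hi]
      constructor <;> linarith
    · rw [mem_Ib]
      simp only [ulo, uhi]
      have h3 : |(u : ℝ) - ((((t - b * u : ℤ) : ℝ)) - x v) / β| < ρ / |β| := by
        have e : (u : ℝ) - ((((t - b * u : ℤ) : ℝ)) - x v) / β =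
            (x v + β * u - ((t - b * u : ℤ) : ℝ)) / β := by
          field_simp
          ring
        rw [e, abs_div]
        exact div_lt_div_of_pos_right (abs_lt.mpr ht) hβ0
      rw [abs_lt] at h3
      constructor <;> linarith
  -- the count
  have h1 : ((Bad m i ρ c a N).ncard : ℝ) ≤ A.card := by
    have := Set.ncard_le_ncard hsub A.finite_toSet
    rw [Set.ncard_coe_finset] at this
    exact_mod_cast this
  have hρβ : 2 * ρ / |β| + 1 ≤ 4 * ρ / |β| := by
    rw [div_add_one hβ0.ne', div_le_div_iff_of_pos_right hβ0]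
    linarith
  have h3 : ∀ v t, ((Ib (ulo v t) (uhi v t)).card : ℝ) ≤ 4 * ρ / |β| := by
    intro v t
    have hpos : 0 < ρ / |β| := by positivity
    have := card_Ib (ulo v t) (uhi v t) (by simp only [ulo, uhi]; linarith)
    refine this.trans (le_trans (le_of_eq ?_) hρβ)
    simp only [ulo, uhi]
    ring
  have h4 : ∀ v, ((Ib (lo v) (hi v)).card : ℝ) ≤ |β| * (N / q) + 2 * ρ + 1 := by
    intro v
    have hmm : max 0 (β * (N / q)) - min 0 (β * (N / q)) = |β| * (N / q) := by
      rw [max_sub_min_eq_abs', zero_sub, abs_neg, abs_mul, abs_of_nonneg (by positivity : (0 : ℝ) ≤ N / q)]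
    have hmm0 : 0 ≤ |β| * ((N : ℝ) / q) := by positivity
    have := card_Ib (lo v) (hi v) (by simp only [lo, hi]; linarith)
    refine this.trans (le_of_eq ?_)
    simp only [lo, hi]
    linarith
  have h5 : (A.card : ℝ) ≤ q * ((|β| * (N / q) + 2 * ρ + 1) * (4 * ρ / |β|)) := by
    have h6 : A.card ≤ ∑ v ∈ Finset.range q, ∑ t ∈ Ib (lo v) (hi v), (Ib (ulo v t) (uhi v t)).card := by
      refine Finset.card_biUnion_le.trans (Finset.sum_le_sum fun v _ => ?_)
      refine Finset.card_biUnion_le.trans (Finset.sum_le_sum fun t _ => ?_)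
      exact Finset.card_image_le
    have h7 : (A.card : ℝ) ≤
        ∑ v ∈ Finset.range q, ∑ t ∈ Ib (lo v) (hi v), ((Ib (ulo v t) (uhi v t)).card : ℝ) := by
      exact_mod_cast h6
    refine h7.trans ?_
    have h8 : ∀ v ∈ Finset.range q, ∑ t ∈ Ib (lo v) (hi v), ((Ib (ulo v t) (uhi v t)).card : ℝ) ≤
        (|β| * (N / q) + 2 * ρ + 1) * (4 * ρ / |β|) := by
      intro v _
      calc ∑ t ∈ Ib (lo v) (hi v), ((Ib (ulo v t) (uhi v t)).card : ℝ)
          ≤ ∑ t ∈ Ib (lo v) (hi v), 4 * ρ / |β| := Finset.sum_le_sum fun t _ => h3 v t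
        _ = (Ib (lo v) (hi v)).card * (4 * ρ / |β|) := by rw [Finset.sum_const, nsmul_eq_mul]
        _ ≤ _ := mul_le_mul_of_nonneg_right (h4 v) (by positivity)
    refine (Finset.sum_le_sum h8).trans (le_of_eq ?_)
    rw [Finset.sum_const, Finset.card_range, nsmul_eq_mul]
  have h9 : (q : ℝ) * ((|β| * (N / q) + 2 * ρ + 1) * (4 * ρ / |β|)) =
      4 * ρ * N + (2 * ρ + 1) * (4 * ρ) * (q / |β|) := by
    field_simp
    ring
  have h10 : (q : ℝ) / |β| ≤ N := by
    rw [div_le_iff₀ hβ0]
    have := mul_le_mul_of_nonneg_right hN hq0.le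
    have e : (N : ℝ) * (|β| / q) * q = N * |β| := by field_simp
    rw [e] at this
    linarith
  have hN0 : (0 : ℝ) ≤ N := by positivity
  calc ((Bad m i ρ c a N).ncard : ℝ) ≤ A.card := h1
    _ ≤ _ := h5
    _ = _ := h9
    _ ≤ 4 * ρ * N + (2 * ρ + 1) * (4 * ρ) * N := by
        gcongr
    _ ≤ 4 * ρ * N + (2 * (1 / 8) + 1) * (4 * ρ) * N := by
        gcongr
    _ ≤ 16 * ρ * N := by
        have : 0 ≤ ρ * N := by positivity
        nlinarith

end Pool.Agent.W352.SC
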