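import Pool.Agent.W564.SC.Defs2

/-!
# Part MB: many simultaneous pushes with disjoint supports
-/

set_option autoImplicit false

open scoped Manifold ContDiff Topology
open Filter Set Metric

universe u

namespace Pool.Agent.W352.SC

open Pool.Agent.H718R2.G Pool.Agent.W564.SC

/-- diffeomorphisms with disjoint supports -/
lemma glue (n : ℕ) (N : Type u) [TopologicalSpace N] [ChartedSpace (V n) N] (r : ℕ∞)
    (K : ℕ → Set N) (T : ℕ → DiffM n N r) (m : ℕ) (hT : ∀ i < m, ∀ y ∉ K i, T i y = y)
    (hK : ∀ i < m, ∀ j < m, i ≠ j → Disjoint (K i) (K j)) :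
    ∃ Θ : DiffM n N r, (∀ y, (∀ i < m, y ∉ K i) → Θ y = y) ∧
      ∀ i < m, ∀ y ∈ K i, Θ y = T i y := by
  induction m with
  | zero =>
    exact ⟨Diffeomorph.refl (𝓡 n) N r, fun y _ => rfl, fun i hi => absurd hi (Nat.not_lt_zero i)⟩
  | succ m ih =>
    obtain ⟨Θ, h1, h2⟩ := ih (fun i hi => hT i (by omega))
      (fun i hi j hj => hK i (by omega) j (by omega))
    have hmem : ∀ i < m, ∀ y ∈ K i, T i y ∈ K i := by
      intro i hi y hy
      by_contra hcon
      have h3 := hT i (by omega) _ hcon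
      have h4 : T i y = y := (T i).injective h3
      rw [h4] at hcon
      exact hcon hy
    refine ⟨Θ.trans (T m), fun y hy => ?_, fun i hi y hy => ?_⟩
    · change T m (Θ y) = y
      rw [h1 y (fun i hi => hy i (by omega))]
      exact hT m (by omega) y (hy m (by omega))
    · change T m (Θ y) = T i y
      rcases Nat.lt_succ_iff_lt_or_eq.mp hi with h | h
      · rw [h2 i h y hy]
        refine hT m (by omega) _ fun hcon => ?_
        exact (Set.disjoint_left.mp (hK i (by omega) m (by omega) (by omega))) (hmem i h y hy) hcon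
      · subst h
        rw [h1 y (fun j hj hcon =>
          (Set.disjoint_left.mp (hK j (by omega) i (by omega) (by omega))) hcon hy)]

/-- translated bumps -/
lemma small_shift (n k : ℕ) (κ κ' ρ : ℝ) (hρ : ρ ≤ 1 / 16) (v : V n → V n)
    (hv : Small n k κ v) (hκ : κ ≤ κ') (hsup : ∀ x, 2 * ρ ≤ ‖x‖ → v x = 0) (q : V n)
    (hq : ‖q‖ ≤ 1 / 4) : Small n k κ' (fun x => v (x - q)) := by
  refine ⟨hv.smooth.comp (contDiff_id.sub contDiff_const), fun x hx => ?_, fun j hj x => ?_⟩
  · apply hsup
    have := norm_sub_norm_le x q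
    linarith
  · rw [iteratedFDeriv_comp_sub]
    exact (hv.bd j hj _).trans hκ

/-- monotonicity in the order -/
lemma small_one (n k : ℕ) (κ κ' : ℝ) (hk : 1 ≤ k) (hκ : κ ≤ κ') (v : V n → V n)
    (hv : Small n k κ v) : Small n 1 κ' v :=
  ⟨hv.smooth, hv.supp, fun j hj x => (hv.bd j (by omega) x).trans hκ⟩

theorem mb (h : S_BUMP) (h2 : S_PUSH.{u}) : S_MB.{u} := by
  intro n N _ _ _ _ _ r A χs zs hχ hA k hk
  obtain ⟨C0, hC0, hb⟩ := h n k hk
  refine ⟨2 * C0 + 1, by positivity, ?_⟩
  intro ρ κ hρ hρ16 hCκ hκ m b q w hq hw hdis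
  have hκ1 : κ ≤ 1 := by nlinarith
  have hC0κ : C0 * κ ≤ 1 / 2 := by nlinarith
  have hρk : 0 < ρ ^ k := by positivity
  have hball : ∀ i < m, closedBall (q i) (2 * ρ) ⊆ (χs (b i)).target := by
    intro i hi x hx
    apply (hχ (b i)).ball
    rw [mem_closedBall, dist_zero_right]
    rw [mem_closedBall, dist_eq_norm] at hx
    have := norm_le_norm_sub_add x (q i)
    have := hq i hi
    linarith
  -- the single pushes
  have key : ∀ i, ∃ (T : DiffM n N r) (v : V n → V n), i < m →
      Small n k ((2 * C0 + 1) * κ) v ∧ IsPush n N r (χs (b i)) v T ∧ v (q i + w i) = - w i ∧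
      ∀ x, 2 * ρ ≤ ‖x - q i‖ → v x = 0 := by
    intro i
    by_cases hi : i < m
    · have hwi : ‖w i‖ ≤ ρ := by
        refine (hw i hi).trans ?_
        calc κ * ρ ^ k ≤ 1 * ρ ^ 1 := by
              refine mul_le_mul hκ1 (pow_le_pow_of_le_one hρ.le (by linarith) hk) hρk.le zero_le_one
          _ = ρ := by ring
      obtain ⟨v, hv1, hv2, hv3⟩ := hb ρ hρ (by linarith) (w i) hwi
      have hle : C0 * (‖w i‖ / ρ ^ k) ≤ C0 * κ := by
        refine mul_le_mul_of_nonneg_left ?_ hC0.le
        rw [div_le_iff₀ hρk]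
        exact hw i hi
      have hs := small_shift n k _ (C0 * κ) ρ hρ16 v hv1 hle hv3 (q i) (hq i hi)
      obtain ⟨T, hT⟩ := h2 n N r (χs (b i)) (zs (b i)) (hχ (b i)) _
        (small_one n k (C0 * κ) (1 / 2) hk hC0κ _ hs)
      refine ⟨T, _, fun _ => ⟨⟨hs.smooth, hs.supp, fun j hj x => (hs.bd j hj x).trans ?_⟩, hT, ?_, ?_⟩⟩
      · nlinarith
      · simp only [add_sub_cancel_left]
        exact hv2
      · intro x hx
        exact hv3 _ hx
    · exact ⟨Diffeomorph.refl (𝓡 n) N r, 0, fun h => absurd h hi⟩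
  choose T v hTv using key
  set K : ℕ → Set N := fun i => (χs (b i)).symm '' closedBall (q i) (2 * ρ) with hKdef
  have hTK : ∀ i < m, ∀ y ∉ K i, T i y = y := by
    intro i hi y hy
    obtain ⟨h3, h4, h5, h6⟩ := hTv i hi
    by_cases hs : y ∈ (χs (b i)).source
    · obtain ⟨h7, h8⟩ := h4.1 y hs
      have h9 : v i (χs (b i) y) = 0 := by
        apply h6
        by_contra hcon
        apply hy
        refine ⟨χs (b i) y, ?_, (χs (b i)).left_inv hs⟩
        rw [mem_closedBall, dist_eq_norm]
        linarith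
      rw [h9, add_zero] at h8
      exact (χs (b i)).injOn h7 hs h8
    · exact h4.2 y hs
  obtain ⟨Θ, hΘ1, hΘ2⟩ := glue n N r K T m hTK hdis
  have hclosed : ∀ i < m, IsClosed (K i) := by
    intro i hi
    apply IsCompact.isClosed
    exact (isCompact_closedBall _ _).image_of_continuousOn
      ((χs (b i)).continuousOn_symm.mono (hball i hi))
  refine ⟨Θ, fun y => ?_, fun i hi => ?_⟩
  · by_cases hy : ∃ i < m, y ∈ K i
    · obtain ⟨i, hi, hyi⟩ := hy
      obtain ⟨h3, h4, -, -⟩ := hTv i hi
      refine ⟨b i, v i, T i, h3, h4, ?_⟩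
      have hO : IsOpen (⋂ j ∈ (Finset.range m).erase i, (K j)ᶜ) := by
        apply isOpen_biInter_finset
        intro j hj
        rw [Finset.mem_erase, Finset.mem_range] at hj
        exact (hclosed j hj.2).isOpen_compl
      have hyO : y ∈ ⋂ j ∈ (Finset.range m).erase i, (K j)ᶜ := by
        rw [Set.mem_iInter₂]
        intro j hj hcon
        rw [Finset.mem_erase, Finset.mem_range] at hj
        exact (Set.disjoint_left.mp (hdis j hj.2 i hi hj.1)) hcon hyi
      filter_upwards [hO.mem_nhds hyO] with y' hy'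
      rw [Set.mem_iInter₂] at hy'
      by_cases hyi' : y' ∈ K i
      · exact hΘ2 i hi y' hyi'
      · rw [hTK i hi y' hyi']
        refine hΘ1 y' fun j hj => ?_
        by_cases hji : j = i
        · rw [hji]
          exact hyi'
        · exact hy' j (by rw [Finset.mem_erase, Finset.mem_range]; exact ⟨hji, hj⟩)
    · push Not at hy
      refine ⟨⟨0, by omega⟩, fun _ => 0, Diffeomorph.refl (𝓡 n) N r, ⟨contDiff_const, fun _ _ => rfl,
        fun j hj x => ?_⟩, ⟨fun y hy => ⟨hy, ?_⟩, fun y hy => rfl⟩, ?_⟩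
      · have : iteratedFDeriv ℝ j (fun _ : V n => (0 : V n)) x = 0 := by
          have := iteratedFDeriv_fun_zero (𝕜 := ℝ) (E := V n) (F := V n) (n := j)
          exact congrFun this x
        rw [this, norm_zero]
        positivity
      · rw [add_zero]
        rfl
      · have hO : IsOpen (⋂ j ∈ Finset.range m, (K j)ᶜ) := by
          apply isOpen_biInter_finset
          intro j hj
          rw [Finset.mem_range] at hj
          exact (hclosed j hj).isOpen_compl
        have hyO : y ∈ ⋂ j ∈ Finset.range m, (K j)ᶜ := by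
          rw [Set.mem_iInter₂]
          intro j hj
          rw [Finset.mem_range] at hj
          exact hy j hj
        filter_upwards [hO.mem_nhds hyO] with y' hy'
        rw [Set.mem_iInter₂] at hy'
        exact hΘ1 y' fun j hj => hy' j (Finset.mem_range.mpr hj)
  · obtain ⟨h3, h4, h5, h6⟩ := hTv i hi
    have hwi : ‖w i‖ ≤ 2 * ρ := by
      refine (hw i hi).trans ?_
      calc κ * ρ ^ k ≤ 1 * ρ ^ 1 := by
            refine mul_le_mul hκ1 (pow_le_pow_of_le_one hρ.le (by linarith) hk) hρk.le zero_le_one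
        _ ≤ 2 * ρ := by linarith
    have hqw : q i + w i ∈ closedBall (q i) (2 * ρ) := by
      rw [mem_closedBall, dist_eq_norm, add_sub_cancel_left]
      exact hwi
    have hqq : q i ∈ closedBall (q i) (2 * ρ) := mem_closedBall_self (by positivity)
    rw [hΘ2 i hi _ ⟨_, hqw, rfl⟩]
    have ht := hball i hi hqw
    obtain ⟨h7, h8⟩ := h4.1 _ ((χs (b i)).map_target ht)
    rw [(χs (b i)).right_inv ht, h5, add_neg_cancel_right] at h8
    exact ((χs (b i)).left_inv h7).symm.trans (congrArg _ h8)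

end Pool.Agent.W352.SC
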